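import Pool.Agent.H43.G.R_seed8.H300R2.BH.Defs
import Pool.Agent.H43.G.R_seed8.H442R2.EHI.Ram

/-! T6: the model along a polynomial. -/

namespace Pool.Agent.H465R2.BH

open Finset Polynomial
open Pool.Agent.H469R2.NK (e e_add e_nat)
open Pool.Agent.H442R2.EHI
open Pool.Agent.H300R2.BH

theorem per_sum (c : ℕ → ℂ) (q : ℕ) (hc : ∀ k, c (k + q) = c k) (s : ℕ) :
    ∑ i ∈ range q, c (s + i) = ∑ i ∈ range q, c i := by
  induction s with
  | zero => simp
  | succ s ih =>
    have h1 : ∑ i ∈ range (q + 1), c (s + i) = ∑ i ∈ range q, c (s + 1 + i) + c s := by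
      rw [Finset.sum_range_succ']
      have : ∀ i ∈ range q, c (s + (i + 1)) = c (s + 1 + i) := by
        intro i _
        congr 1
        omega
      rw [Finset.sum_congr rfl this]
      simp
    have h2 : ∑ i ∈ range (q + 1), c (s + i) = ∑ i ∈ range q, c (s + i) + c (s + q) :=
      Finset.sum_range_succ _ _
    rw [hc s, h1] at h2
    rw [← ih]
    exact add_right_cancel h2

theorem part_bound (c : ℕ → ℂ) (q : ℕ) (hq : 1 ≤ q) (hc : ∀ k, c (k + q) = c k)
    (h0 : ∑ i ∈ range q, c i = 0) (B : ℝ) (hB : ∀ k, ‖c k‖ ≤ B) (s n : ℕ) :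
    ‖∑ i ∈ range n, c (s + i)‖ ≤ q * B := by
  have hB0 : 0 ≤ B := (norm_nonneg _).trans (hB 0)
  induction n using Nat.strong_induction_on with
  | _ n ih =>
    by_cases hn : n < q
    · refine (norm_sum_le _ _).trans ?_
      refine (Finset.sum_le_sum (fun i _ => hB (s + i))).trans ?_
      rw [Finset.sum_const, card_range, nsmul_eq_mul]
      exact mul_le_mul_of_nonneg_right (by exact_mod_cast hn.le) hB0
    · have h1 : n = (n - q) + q := by omega
      have h2 : ∑ i ∈ range n, c (s + i) = ∑ i ∈ range (n - q), c (s + i) := by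
        rw [h1, Finset.sum_range_add]
        have : ∀ i ∈ range q, c (s + ((n - q) + i)) = c ((s + (n - q)) + i) := by
          intro i _
          congr 1
          omega
        rw [Finset.sum_congr rfl this, per_sum c q hc, h0, add_zero]
        congr 2
        omega
      rw [h2]
      exact ih (n - q) (by omega)

theorem abel_bound (g : ℕ → ℂ) (w : ℕ → ℝ) (n : ℕ) (P δ : ℝ) (hP : 0 ≤ P)
    (hδ : 0 ≤ δ) (hg : ∀ m, ‖∑ i ∈ range m, g i‖ ≤ P) (hw : ∀ i < n, |w i| ≤ 1)
    (hd : ∀ i, i + 1 < n → |w (i + 1) - w i| ≤ δ) :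
    ‖∑ i ∈ range n, (w i : ℂ) * g i‖ ≤ P * (1 + n * δ) := by
  rcases Nat.eq_zero_or_pos n with h | h
  · subst h
    simpa using hP
  have h1 := Finset.sum_range_by_parts (fun i => (w i : ℂ)) g n
  simp only [smul_eq_mul] at h1
  rw [h1]
  refine (norm_sub_le _ _).trans ?_
  have h2 : ‖(w (n - 1) : ℂ) * ∑ i ∈ range n, g i‖ ≤ P := by
    rw [norm_mul, Complex.norm_real]
    calc ‖w (n - 1)‖ * ‖∑ i ∈ range n, g i‖ ≤ 1 * P :=
          mul_le_mul (hw (n - 1) (by omega)) (hg n) (norm_nonneg _) zero_le_one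
      _ = P := one_mul P
  have h3 : ‖∑ i ∈ range (n - 1), (((w (i + 1) : ℝ) : ℂ) - (w i : ℂ)) *
      ∑ i ∈ range (i + 1), g i‖ ≤ ((n - 1 : ℕ) : ℝ) * (δ * P) := by
    refine (norm_sum_le _ _).trans ?_
    have : ∀ i ∈ range (n - 1), ‖(((w (i + 1) : ℝ) : ℂ) - (w i : ℂ)) *
        ∑ i ∈ range (i + 1), g i‖ ≤ δ * P := by
      intro i hi
      rw [mem_range] at hi
      rw [norm_mul, ← Complex.ofReal_sub, Complex.norm_real]
      have hdi := hd i (by omega)
      exact mul_le_mul hdi (hg (i + 1)) (norm_nonneg _) ((abs_nonneg _).trans hdi)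
    refine (Finset.sum_le_sum this).trans ?_
    rw [Finset.sum_const, card_range, nsmul_eq_mul]
  have h5 : ((n - 1 : ℕ) : ℝ) ≤ n := by exact_mod_cast Nat.sub_le n 1
  have h6 : ((n - 1 : ℕ) : ℝ) * (δ * P) ≤ n * (δ * P) :=
    mul_le_mul_of_nonneg_right h5 (mul_nonneg hδ hP)
  nlinarith

theorem cq_mod_eq (q n m : ℕ) (hq : 1 ≤ q) (h : n = m + q) : cq q n = cq q m := by
  unfold cq
  refine Finset.sum_congr rfl fun b _ => ?_
  have hq0 : (q : ℝ) ≠ 0 := by
    have : q ≠ 0 := by omega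
    exact_mod_cast this
  have h1 : (b : ℝ) * (n : ℝ) / q = (b : ℝ) * (m : ℝ) / q + (b : ℝ) := by
    rw [h]
    push_cast
    field_simp
  rw [h1, e_add, e_nat, mul_one]

theorem cq_mod (q n : ℕ) (hq : 1 ≤ q) : cq q (n % q) = cq q n := by
  induction n using Nat.strong_induction_on with
  | _ n ih =>
    by_cases hn : n < q
    · rw [Nat.mod_eq_of_lt hn]
    · rw [Nat.mod_eq_sub_mod (by omega), ih (n - q) (by omega)]
      exact (cq_mod_eq q n (n - q) hq (by omega)).symm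

theorem eval_mod (F : ℤ[X]) (q k : ℕ) : (F.eval ((k + q : ℕ) : ℤ)) % (q : ℤ) =
    (F.eval (k : ℤ)) % (q : ℤ) := by
  have h : ((k + q : ℕ) : ℤ) - (k : ℤ) ∣ F.eval ((k + q : ℕ) : ℤ) - F.eval (k : ℤ) :=
    Polynomial.sub_dvd_eval_sub _ _ F
  have h2 : ((k + q : ℕ) : ℤ) - (k : ℤ) = q := by
    push_cast
    ring
  rw [h2] at h
  exact Int.emod_eq_emod_iff_emod_sub_eq_zero.mpr (Int.emod_eq_zero_of_dvd h)

theorem log_diff (u v y : ℝ) (hy : 3 ≤ y) (hu : y ≤ u) (hv : y ≤ v) :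
    |1 / Real.log u - 1 / Real.log v| ≤ |u - v| / y := by
  have key : ∀ u v : ℝ, y ≤ u → u ≤ v → |1 / Real.log u - 1 / Real.log v| ≤ |u - v| / y := by
    intro u v hu huv
    have h3 : Real.exp 1 ≤ 3 := by
      have := Real.exp_one_lt_d9
      linarith
    have hlu : 1 ≤ Real.log u := by
      rw [Real.le_log_iff_exp_le (by linarith)]
      linarith
    have hlv : Real.log u ≤ Real.log v := Real.log_le_log (by linarith) huv
    have h4 : Real.log v - Real.log u ≤ (v - u) / y := by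
      rw [← Real.log_div (by linarith) (by linarith)]
      have h5 := Real.log_le_sub_one_of_pos (x := v / u) (by
        apply div_pos <;> linarith)
      have h6 : v / u - 1 = (v - u) / u := by
        have : u ≠ 0 := by linarith
        field_simp
      rw [h6] at h5
      refine h5.trans ?_
      apply div_le_div_of_nonneg_left (by linarith) (by linarith) hu
    have h7 : 1 / Real.log u - 1 / Real.log v =
        (Real.log v - Real.log u) / (Real.log u * Real.log v) := by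
      have h8 : Real.log u ≠ 0 := by linarith
      have h9 : Real.log v ≠ 0 := by linarith
      field_simp
    rw [h7, abs_of_nonneg (div_nonneg (by linarith) (by nlinarith)), abs_sub_comm,
      abs_of_nonneg (by linarith : (0 : ℝ) ≤ v - u)]
    refine le_trans ?_ h4
    apply div_le_self (by linarith)
    nlinarith
  rcases le_total u v with h | h
  · exact key u v hu h
  · rw [abs_sub_comm, abs_sub_comm u v]
    exact key v u hv h

/-- T6 (ModelP.lean). -/
theorem modelP (F : ℤ[X]) (Q K1 K : ℕ) (y M : ℝ) (hQ : 1 ≤ Q) (hK : K1 ≤ K) (hy : 3 ≤ y)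
    (hM0 : 0 ≤ M) (hF : ∀ k ∈ Ioc K1 K, y ≤ ((F.eval (k : ℤ) : ℤ) : ℝ))
    (hM : ∀ k ∈ Ioc K1 K, k + 1 ∈ Ioc K1 K →
      |((F.eval ((k + 1 : ℕ) : ℤ) : ℤ) : ℝ) - ((F.eval (k : ℤ) : ℤ) : ℝ)| ≤ M) :
    ‖∑ k ∈ Ioc K1 K, gg Q (F.eval (k : ℤ)).toNat / (Real.log ((F.eval (k : ℤ) : ℤ) : ℝ) : ℂ) -
      (∑ q ∈ Icc 1 Q, (((ArithmeticFunction.moebius q : ℤ) : ℂ) / (Nat.totient q : ℂ)) * mq F q) *
        ∑ k ∈ Ioc K1 K, ((1 / Real.log ((F.eval (k : ℤ) : ℤ) : ℝ) : ℝ) : ℂ)‖ ≤
      4 * (Q : ℝ) ^ 2 * (K * M / y + 1) := by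
  classical
  set w : ℕ → ℝ := fun k => 1 / Real.log ((F.eval (k : ℤ) : ℤ) : ℝ) with hwdef
  have hy0 : 0 < y := by linarith
  have h3 : Real.exp 1 ≤ 3 := by
    have := Real.exp_one_lt_d9
    linarith
  have hw1 : ∀ k ∈ Ioc K1 K, |w k| ≤ 1 := by
    intro k hk
    have h4 : 1 ≤ Real.log ((F.eval (k : ℤ) : ℤ) : ℝ) := by
      rw [Real.le_log_iff_exp_le (by linarith [hF k hk])]
      linarith [hF k hk]
    rw [hwdef]
    simp only
    rw [abs_of_nonneg (by positivity)]
    exact (div_le_one (by linarith)).mpr h4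
  have hwd : ∀ k ∈ Ioc K1 K, k + 1 ∈ Ioc K1 K → |w (k + 1) - w k| ≤ M / y := by
    intro k hk hk1
    refine (log_diff _ _ y hy (hF _ hk1) (hF _ hk)).trans ?_
    exact div_le_div_of_nonneg_right (hM k hk hk1) hy0.le
  -- the periodic functions
  set c : ℕ → ℕ → ℂ := fun q k => cq q ((F.eval (k : ℤ)) % (q : ℤ)).toNat with hcdef
  have hcper : ∀ q k, c q (k + q) = c q k := by
    intro q k
    rw [hcdef]
    simp only
    rw [eval_mod]
  have hceq : ∀ q, 1 ≤ q → ∀ k ∈ Ioc K1 K, cq q (F.eval (k : ℤ)).toNat = c q k := by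
    intro q hq k hk
    have h5 : 0 ≤ F.eval (k : ℤ) := by
      have : (0 : ℝ) ≤ ((F.eval (k : ℤ) : ℤ) : ℝ) := by linarith [hF k hk]
      exact_mod_cast this
    rw [hcdef]
    simp only
    rw [← cq_mod q _ hq]
    congr 1
    rw [Int.toNat_emod h5 (by positivity)]
    simp
  -- error for a single q
  have herr : ∀ q ∈ Icc 1 Q, ‖∑ k ∈ Ioc K1 K, (w k : ℂ) * (c q k - mq F q)‖ ≤
      (q * (2 * (Nat.totient q : ℝ))) * (1 + K * (M / y)) := by
    intro q hq
    rw [mem_Icc] at hq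
    have hq0 : (q : ℂ) ≠ 0 := by
      have : q ≠ 0 := by omega
      exact_mod_cast this
    have hmq : ‖mq F q‖ ≤ (Nat.totient q : ℝ) := by
      unfold mq
      rw [norm_mul, norm_div, norm_one, Complex.norm_natCast]
      have h6 : ‖∑ k ∈ range q, cq q ((F.eval (k : ℤ)) % (q : ℤ)).toNat‖ ≤
          q * (Nat.totient q : ℝ) := by
        refine (norm_sum_le _ _).trans ?_
        refine (Finset.sum_le_sum (fun k _ => cq_norm q _)).trans ?_
        rw [Finset.sum_const, card_range, nsmul_eq_mul]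
      have hq1 : (0 : ℝ) < q := by exact_mod_cast hq.1
      calc 1 / (q : ℝ) * ‖∑ k ∈ range q, cq q ((F.eval (k : ℤ)) % (q : ℤ)).toNat‖ ≤
          1 / (q : ℝ) * (q * (Nat.totient q : ℝ)) :=
            mul_le_mul_of_nonneg_left h6 (by positivity)
        _ = (Nat.totient q : ℝ) := by field_simp
    have hB : ∀ k, ‖c q k - mq F q‖ ≤ 2 * (Nat.totient q : ℝ) := by
      intro k
      refine (norm_sub_le _ _).trans ?_
      have := cq_norm q ((F.eval (k : ℤ)) % (q : ℤ)).toNat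
      have h7 : ‖c q k‖ ≤ (Nat.totient q : ℝ) := this
      linarith
    have hsum0 : ∑ i ∈ range q, (c q i - mq F q) = 0 := by
      rw [Finset.sum_sub_distrib, Finset.sum_const, card_range, nsmul_eq_mul]
      unfold mq
      rw [← mul_assoc, mul_one_div_cancel hq0, one_mul]
      exact sub_self _
    have hpart := part_bound (fun k => c q k - mq F q) q hq.1
      (fun k => by simp only [hcper]) hsum0 _ hB (K1 + 1)
    have h8 : ∑ k ∈ Ioc K1 K, (w k : ℂ) * (c q k - mq F q) =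
        ∑ i ∈ range (K - K1), (w (K1 + 1 + i) : ℂ) * (c q (K1 + 1 + i) - mq F q) := by
      have h9 : Ioc K1 K = Ico (K1 + 1) (K + 1) := by
        ext a
        simp only [mem_Ioc, mem_Ico]
        omega
      rw [h9, Finset.sum_Ico_eq_sum_range]
      congr 2
      omega
    rw [h8]
    have h10 := abel_bound (fun i => c q (K1 + 1 + i) - mq F q) (fun i => w (K1 + 1 + i))
      (K - K1) (q * (2 * (Nat.totient q : ℝ))) (M / y) (by positivity) (by positivity)
      hpart (fun i hi => hw1 _ (by rw [mem_Ioc]; omega))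
      (fun i hi => by
        have := hwd (K1 + 1 + i) (by rw [mem_Ioc]; omega) (by rw [mem_Ioc]; omega)
        simpa [add_assoc] using this)
    refine h10.trans ?_
    apply mul_le_mul_of_nonneg_left _ (by positivity)
    have h11 : ((K - K1 : ℕ) : ℝ) ≤ K := by exact_mod_cast Nat.sub_le K K1
    have h12 := mul_le_mul_of_nonneg_right h11 (by positivity : 0 ≤ M / y)
    linarith
  -- expand
  have hexp : ∑ k ∈ Ioc K1 K, gg Q (F.eval (k : ℤ)).toNat /
        (Real.log ((F.eval (k : ℤ) : ℤ) : ℝ) : ℂ) -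
      (∑ q ∈ Icc 1 Q, (((ArithmeticFunction.moebius q : ℤ) : ℂ) / (Nat.totient q : ℂ)) * mq F q) *
        ∑ k ∈ Ioc K1 K, ((1 / Real.log ((F.eval (k : ℤ) : ℤ) : ℝ) : ℝ) : ℂ) =
      ∑ q ∈ Icc 1 Q, (((ArithmeticFunction.moebius q : ℤ) : ℂ) / (Nat.totient q : ℂ)) *
        ∑ k ∈ Ioc K1 K, (w k : ℂ) * (c q k - mq F q) := by
    have hA : ∑ k ∈ Ioc K1 K, gg Q (F.eval (k : ℤ)).toNat /
        (Real.log ((F.eval (k : ℤ) : ℤ) : ℝ) : ℂ) =
        ∑ q ∈ Icc 1 Q, (((ArithmeticFunction.moebius q : ℤ) : ℂ) / (Nat.totient q : ℂ)) *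
        ∑ k ∈ Ioc K1 K, (w k : ℂ) * c q k := by
      have hA1 : ∀ k ∈ Ioc K1 K, gg Q (F.eval (k : ℤ)).toNat /
        (Real.log ((F.eval (k : ℤ) : ℤ) : ℝ) : ℂ) = ∑ q ∈ Icc 1 Q,
          (((ArithmeticFunction.moebius q : ℤ) : ℂ) / (Nat.totient q : ℂ)) *
            ((w k : ℂ) * c q k) := by
        intro k hk
        unfold gg
        rw [Finset.sum_div]
        refine Finset.sum_congr rfl fun q hq => ?_
        rw [mem_Icc] at hq
        rw [hceq q hq.1 k hk]
        rw [hwdef]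
        simp only
        push_cast
        ring
      rw [Finset.sum_congr rfl hA1, Finset.sum_comm]
      refine Finset.sum_congr rfl fun q _ => ?_
      rw [Finset.mul_sum]
    rw [hA, Finset.sum_mul, ← Finset.sum_sub_distrib]
    refine Finset.sum_congr rfl fun q _ => ?_
    rw [Finset.mul_sum, Finset.mul_sum, Finset.mul_sum, ← Finset.sum_sub_distrib]
    refine Finset.sum_congr rfl fun k _ => ?_
    rw [hwdef]
    simp only
    ring
  rw [hexp]
  refine (norm_sum_le _ _).trans ?_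
  have hterm : ∀ q ∈ Icc 1 Q, ‖(((ArithmeticFunction.moebius q : ℤ) : ℂ) / (Nat.totient q : ℂ)) *
        ∑ k ∈ Ioc K1 K, (w k : ℂ) * (c q k - mq F q)‖ ≤ 2 * Q * (1 + K * (M / y)) := by
    intro q hq
    have h13 := herr q hq
    rw [mem_Icc] at hq
    rw [norm_mul, norm_div, Complex.norm_natCast, Complex.norm_intCast]
    have h14 : |((ArithmeticFunction.moebius q : ℤ) : ℝ)| ≤ 1 := by
      exact_mod_cast ArithmeticFunction.abs_moebius_le_one
    have htot : (0 : ℝ) < (Nat.totient q : ℝ) := by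
      exact_mod_cast Nat.totient_pos.mpr (by omega)
    have h15 : |((ArithmeticFunction.moebius q : ℤ) : ℝ)| / (Nat.totient q : ℝ) ≤
        1 / (Nat.totient q : ℝ) := div_le_div_of_nonneg_right h14 htot.le
    have hX : (0 : ℝ) ≤ 1 + K * (M / y) := by positivity
    calc |((ArithmeticFunction.moebius q : ℤ) : ℝ)| / (Nat.totient q : ℝ) *
          ‖∑ k ∈ Ioc K1 K, (w k : ℂ) * (c q k - mq F q)‖ ≤
        1 / (Nat.totient q : ℝ) * ((q * (2 * (Nat.totient q : ℝ))) * (1 + K * (M / y))) :=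
          mul_le_mul h15 h13 (norm_nonneg _) (by positivity)
      _ = 2 * q * (1 + K * (M / y)) := by field_simp
      _ ≤ 2 * Q * (1 + K * (M / y)) := by
          apply mul_le_mul_of_nonneg_right _ hX
          have : (q : ℝ) ≤ Q := by exact_mod_cast hq.2
          linarith
  refine (Finset.sum_le_sum hterm).trans ?_
  rw [Finset.sum_const, Nat.card_Icc, nsmul_eq_mul]
  have hX : (0 : ℝ) ≤ 1 + K * (M / y) := by positivity
  have hQ0 : (0 : ℝ) ≤ (Q : ℝ) ^ 2 := by positivity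
  have h16 : ((Q + 1 - 1 : ℕ) : ℝ) = Q := by simp
  rw [h16]
  have h17 : (K : ℝ) * (M / y) = K * M / y := by ring
  rw [h17] at hX ⊢
  nlinarith [mul_nonneg hQ0 hX]

end Pool.Agent.H465R2.BH
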